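import Mathlib

set_option autoImplicit false

open TopologicalSpace Cardinal

namespace Pool.Agent.Results.MP_52c726_an.Counterexample

/-- The density character of a topological space: the least cardinality of a dense subset. -/
noncomputable def dens (Y : Type) [TopologicalSpace Y] : Cardinal.{0} :=
  sInf {c : Cardinal.{0} | ∃ s : Set Y, Dense s ∧ Cardinal.mk s = c}

/-- `V` is complemented in `X`: it is the range of a bounded linear projection. -/
def IsComplementedIn (𝕜 : Type) [RCLike 𝕜] (X : Type) [NormedAddCommGroup X] [NormedSpace 𝕜 X]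
    (V : Submodule 𝕜 X) : Prop :=
  ∃ P : X →L[𝕜] X, (∀ x : X, P (P x) = P x) ∧ Set.range P = (V : Set X)

/-- The separable complementation property. -/
def SCP (𝕜 : Type) [RCLike 𝕜] (X : Type) [NormedAddCommGroup X] [NormedSpace 𝕜 X] : Prop :=
  ∀ W : Submodule 𝕜 X, IsClosed (W : Set X) → SeparableSpace W →
    ∃ V : Submodule 𝕜 X, W ≤ V ∧ SeparableSpace V ∧ IsComplementedIn 𝕜 X V

section Cube

variable {𝕜 : Type} [RCLike 𝕜] {ι : Type}

/-- The function `f` depends only on the coordinates in `S`. -/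
def DepOn (S : Set ι) (f : C(ι → Bool, 𝕜)) : Prop :=
  ∀ x y : ι → Bool, (∀ i ∈ S, x i = y i) → f x = f y

theorem isOpen_cyl (F : Finset ι) (x : ι → Bool) : IsOpen {y : ι → Bool | ∀ i ∈ F, y i = x i} := by
  have : {y : ι → Bool | ∀ i ∈ F, y i = x i} = ⋂ i ∈ F, (fun y : ι → Bool => y i) ⁻¹' {x i} := by
    ext y; simp
  rw [this]
  exact isOpen_biInter_finset fun i _ => (isOpen_discrete _).preimage (continuous_apply i)

theorem exists_cyl_subset {U : Set (ι → Bool)} (hU : IsOpen U) {x : ι → Bool} (hx : x ∈ U) :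
    ∃ F : Finset ι, {y : ι → Bool | ∀ i ∈ F, y i = x i} ⊆ U := by
  rw [isOpen_pi_iff] at hU
  obtain ⟨F, u, hu, hsub⟩ := hU x hx
  refine ⟨F, fun y hy => hsub ?_⟩
  intro i hi
  have : y i = x i := hy i hi
  rw [this]
  exact (hu i hi).2

/-- Uniform approximation by finitely many coordinates. -/
theorem exists_finset_unif (f : C(ι → Bool, 𝕜)) (ε : ℝ) (hε : 0 < ε) :
    ∃ F : Finset ι, ∀ x y : ι → Bool, (∀ i ∈ F, x i = y i) → ‖f x - f y‖ < ε := by
  classical
  have h1 : ∀ x : ι → Bool, ∃ F : Finset ι, {y : ι → Bool | ∀ i ∈ F, y i = x i} ⊆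
      {y | ‖f y - f x‖ < ε / 2} := by
    intro x
    apply exists_cyl_subset
    · have : Continuous fun y => ‖f y - f x‖ := by fun_prop
      exact isOpen_lt this continuous_const
    · simp; positivity
  choose F hF using h1
  obtain ⟨s, hs⟩ := isCompact_univ.elim_finite_subcover
    (fun x => {y : ι → Bool | ∀ i ∈ F x, y i = x i}) (fun x => isOpen_cyl (F x) x)
    (fun x _ => Set.mem_iUnion.2 ⟨x, fun i _ => rfl⟩)
  refine ⟨s.biUnion F, fun y z hyz => ?_⟩
  obtain ⟨x, hx⟩ := Set.mem_iUnion.1 (hs (Set.mem_univ y))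
  obtain ⟨hxs, hyx⟩ := Set.mem_iUnion.1 hx
  have hzx : z ∈ {y : ι → Bool | ∀ i ∈ F x, y i = x i} := by
    intro i hi
    rw [← hyz i (Finset.mem_biUnion.2 ⟨x, hxs, hi⟩)]
    exact hyx i hi
  have h2 := hF x hyx
  have h3 := hF x hzx
  simp only [Set.mem_ofPred_eq] at h2 h3
  calc ‖f y - f z‖ = ‖(f y - f x) - (f z - f x)‖ := by congr 1; ring
    _ ≤ ‖f y - f x‖ + ‖f z - f x‖ := norm_sub_le _ _
    _ < ε := by linarith

/-- Every continuous function on the cube depends on countably many coordinates. -/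
theorem exists_countable_depOn (f : C(ι → Bool, 𝕜)) : ∃ S : Set ι, S.Countable ∧ DepOn S f := by
  choose F hF using fun n : ℕ => exists_finset_unif f (1 / ((n : ℝ) + 1)) (by positivity)
  refine ⟨⋃ n, (F n : Set ι), Set.countable_iUnion fun n => (F n).countable_toSet, ?_⟩
  intro x y hxy
  by_contra hne
  have hpos : 0 < ‖f x - f y‖ := norm_pos_iff.2 (sub_ne_zero.2 hne)
  obtain ⟨n, hn⟩ := exists_nat_one_div_lt hpos
  have := hF n x y fun i hi => hxy i (Set.mem_iUnion.2 ⟨n, hi⟩)
  linarith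

theorem DepOn.mono {S S' : Set ι} (h : S ⊆ S') {f : C(ι → Bool, 𝕜)} (hf : DepOn S f) :
    DepOn S' f := fun x y hxy => hf x y fun i hi => hxy i (h hi)

theorem isClosed_depOn (S : Set ι) : IsClosed {f : C(ι → Bool, 𝕜) | DepOn S f} := by
  have : {f : C(ι → Bool, 𝕜) | DepOn S f} =
      ⋂ (x : ι → Bool) (y : ι → Bool) (_ : ∀ i ∈ S, x i = y i), {f | f x = f y} := by
    ext f; simp [DepOn]
  rw [this]
  refine isClosed_iInter fun x => isClosed_iInter fun y => isClosed_iInter fun _ => ?_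
  exact isClosed_eq (continuous_eval_const x) (continuous_eval_const y)

theorem continuous_of_finite {Z : Type*} [TopologicalSpace Z] (F : Finset ι) (f : (ι → Bool) → Z)
    (h : ∀ x y : ι → Bool, (∀ i ∈ F, x i = y i) → f x = f y) : Continuous f := by
  apply IsLocallyConstant.continuous
  rw [IsLocallyConstant.iff_exists_open]
  intro x
  exact ⟨_, isOpen_cyl F x, fun i _ => rfl, fun y hy => h y x hy⟩

/-- The subspace of the functions vanishing at all points `a t`. -/
def vanish (𝕜 : Type) [RCLike 𝕜] {ι T : Type} (a : T → ι → Bool) :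
    Submodule 𝕜 C(ι → Bool, 𝕜) where
  carrier := {f | ∀ t, f (a t) = 0}
  add_mem' := fun {f g} hf hg t => by simp [hf t, hg t]
  zero_mem' := fun t => by simp
  smul_mem' := fun c f hf t => by simp [hf t]

theorem mem_vanish {T : Type} {a : T → ι → Bool} {f : C(ι → Bool, 𝕜)} :
    f ∈ vanish 𝕜 a ↔ ∀ t, f (a t) = 0 := Iff.rfl

theorem isClosed_vanish {T : Type} (a : T → ι → Bool) :
    IsClosed (vanish 𝕜 a : Set C(ι → Bool, 𝕜)) := by
  have : (vanish 𝕜 a : Set C(ι → Bool, 𝕜)) = ⋂ t, {f | f (a t) = 0} := by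
    ext f; simp [mem_vanish]
  rw [this]
  exact isClosed_iInter fun t => isClosed_eq (continuous_eval_const (a t)) continuous_const

/-- Restriction to the coordinates `s n`. -/
def rr (s : ℕ → ι) (x : ι → Bool) : ℕ → Bool := fun n => x (s n)

open Classical in
/-- A section of `rr s`. -/
noncomputable def jj (s : ℕ → ι) (y : ℕ → Bool) : ι → Bool :=
  fun i => if h : ∃ n, s n = i then y h.choose else false

theorem continuous_rr (s : ℕ → ι) : Continuous (rr s) :=
  continuous_pi fun n => continuous_apply (s n)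

theorem continuous_jj (s : ℕ → ι) : Continuous (jj s) := by
  refine continuous_pi fun i => ?_
  unfold jj
  by_cases h : ∃ n, s n = i
  · simp only [dif_pos h]
    exact continuous_apply _
  · simp only [dif_neg h]
    exact continuous_const

theorem jj_rr (s : ℕ → ι) (x : ι → Bool) (i : ι) (hi : i ∈ Set.range s) :
    jj s (rr s x) i = x i := by
  have h : ∃ n, s n = i := hi
  unfold jj rr
  rw [dif_pos h, h.choose_spec]

theorem isSeparable_depOn_range (s : ℕ → ι) :
    IsSeparable {f : C(ι → Bool, 𝕜) | DepOn (Set.range s) f} := by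
  have h1 : IsSeparable (Set.range fun g : C(ℕ → Bool, 𝕜) =>
      g.comp ⟨rr s, continuous_rr s⟩) := by
    apply isSeparable_range
    exact ContinuousMap.continuous_precomp _
  refine h1.mono ?_
  intro f hf
  refine ⟨f.comp ⟨jj s, continuous_jj s⟩, ?_⟩
  ext x
  exact hf _ _ fun i hi => jj_rr s x i hi

theorem isSeparable_depOn [Nonempty ι] (S : Set ι) (hS : S.Countable) :
    IsSeparable {f : C(ι → Bool, 𝕜) | DepOn S f} := by
  obtain ⟨i0⟩ := ‹Nonempty ι›
  obtain ⟨s, hs⟩ := (hS.insert i0).exists_eq_range (Set.insert_nonempty _ _)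
  refine (isSeparable_depOn_range s).mono fun f hf => ?_
  refine DepOn.mono ?_ hf
  rw [← hs]
  exact Set.subset_insert _ _

/-- The space of the example has the separable complementation property. -/
theorem scp_vanish [Nonempty ι] {T : Type} [Nonempty T] (a : T → ι → Bool) :
    SCP 𝕜 (vanish 𝕜 a) := by
  intro W _ hsep
  -- countable set of coordinates
  obtain ⟨D, hDc, hDd⟩ := hsep.exists_countable_dense
  choose S hSc hS using fun f : C(ι → Bool, 𝕜) => exists_countable_depOn f
  obtain ⟨i0⟩ := ‹Nonempty ι›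
  set S' : Set ι := insert i0 (⋃ d ∈ D, S ((d : W) : vanish 𝕜 a).1) with hS'
  have hS'c : S'.Countable := by
    rw [hS']
    exact (hDc.biUnion fun d _ => hSc _).insert i0
  obtain ⟨s, hs⟩ := hS'c.exists_eq_range (Set.insert_nonempty _ _)
  have hWdep : ∀ w ∈ W, DepOn (Set.range s) (w : vanish 𝕜 a).1 := by
    intro w hw
    have hcl : IsClosed {u : W | DepOn (Set.range s) ((u : vanish 𝕜 a) : C(ι → Bool, 𝕜))} :=
      (isClosed_depOn (Set.range s)).preimage
        (continuous_subtype_val.comp continuous_subtype_val)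
    have hsub : D ⊆ {u : W | DepOn (Set.range s) ((u : vanish 𝕜 a) : C(ι → Bool, 𝕜))} := by
      intro d hd
      refine DepOn.mono ?_ (hS _)
      rw [← hs, hS']
      intro i hi
      exact Set.mem_insert_of_mem _ (Set.mem_biUnion hd hi)
    have := hcl.closure_subset_iff.2 hsub (hDd ⟨w, hw⟩)
    exact this
  -- the retraction
  obtain ⟨t0⟩ := ‹Nonempty T›
  obtain ⟨ρ, hρ, hρr, hρc⟩ := PiNat.exists_retraction_of_isClosed
    (s := closure (Set.range fun t => rr s (a t))) isClosed_closure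
    ⟨rr s (a t0), subset_closure ⟨t0, rfl⟩⟩
  set m1 : C(ι → Bool, ι → Bool) := ⟨fun x => jj s (rr s x),
    (continuous_jj s).comp (continuous_rr s)⟩ with hm1
  set m2 : C(ι → Bool, ι → Bool) := ⟨fun x => jj s (ρ (rr s x)),
    (continuous_jj s).comp (hρc.comp (continuous_rr s))⟩ with hm2
  have hmem : ∀ f : vanish 𝕜 a, f.1.comp m1 - f.1.comp m2 ∈ vanish 𝕜 a := by
    intro f t
    have h1 : ρ (rr s (a t)) = rr s (a t) := hρ _ (subset_closure ⟨t, rfl⟩)
    simp [hm1, hm2, h1]
  let P0 : vanish 𝕜 a →ₗ[𝕜] vanish 𝕜 a :=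
    { toFun := fun f => ⟨f.1.comp m1 - f.1.comp m2, hmem f⟩
      map_add' := fun f g => by
        ext x
        simp
        ring
      map_smul' := fun c f => by
        ext x
        simp
        ring }
  have hP0norm : ∀ f, ‖P0 f‖ ≤ 2 * ‖f‖ := by
    intro f
    change ‖f.1.comp m1 - f.1.comp m2‖ ≤ 2 * ‖f.1‖
    rw [ContinuousMap.norm_le _ (by positivity)]
    intro x
    rw [ContinuousMap.sub_apply]
    calc ‖(f.1.comp m1) x - (f.1.comp m2) x‖ ≤ ‖(f.1.comp m1) x‖ + ‖(f.1.comp m2) x‖ :=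
          norm_sub_le _ _
      _ ≤ ‖f.1‖ + ‖f.1‖ := add_le_add (f.1.norm_coe_le_norm _) (f.1.norm_coe_le_norm _)
      _ = 2 * ‖f.1‖ := by ring
  let P : vanish 𝕜 a →L[𝕜] vanish 𝕜 a := P0.mkContinuous 2 hP0norm
  have hPapp : ∀ f x, (P f).1 x = f.1 (jj s (rr s x)) - f.1 (jj s (ρ (rr s x))) :=
    fun f x => rfl
  have hPdep : ∀ f, DepOn (Set.range s) (P f).1 := by
    intro f x y hxy
    have : rr s x = rr s y := funext fun n => hxy _ ⟨n, rfl⟩
    rw [hPapp, hPapp, this]
  have hPfix : ∀ f : vanish 𝕜 a, DepOn (Set.range s) f.1 → P f = f := by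
    intro f hf
    ext x
    rw [hPapp]
    have h1 : f.1 (jj s (rr s x)) = f.1 x := hf _ _ fun i hi => jj_rr s x i hi
    have h2 : f.1 (jj s (ρ (rr s x))) = 0 := by
      have hcl : IsClosed {y : ℕ → Bool | f.1 (jj s y) = 0} :=
        isClosed_eq (f.1.continuous.comp (continuous_jj s)) continuous_const
      have hsub : closure (Set.range fun t => rr s (a t)) ⊆ {y : ℕ → Bool | f.1 (jj s y) = 0} := by
        refine hcl.closure_subset_iff.2 ?_
        rintro _ ⟨t, rfl⟩
        change f.1 (jj s (rr s (a t))) = 0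
        rw [hf _ (a t) fun i hi => jj_rr s (a t) i hi]
        exact f.2 t
      apply hsub
      rw [← hρr]
      exact Set.mem_range_self _
    rw [h1, h2, sub_zero]
  refine ⟨LinearMap.range P.toLinearMap, ?_, ?_, P, ?_, ?_⟩
  · intro w hw
    exact ⟨w, hPfix w (hWdep w hw)⟩
  · have h1 : IsSeparable ((LinearMap.range P.toLinearMap : Submodule 𝕜 (vanish 𝕜 a)) :
        Set (vanish 𝕜 a)) := by
      have h2 : IsSeparable ((fun f : vanish 𝕜 a => (f : C(ι → Bool, 𝕜))) ⁻¹'
          {f : C(ι → Bool, 𝕜) | DepOn (Set.range s) f}) :=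
        Topology.IsInducing.subtypeVal.isSeparable_preimage (isSeparable_depOn_range (𝕜 := 𝕜) s)
      refine h2.mono ?_
      rintro _ ⟨f, rfl⟩
      exact hPdep f
    exact h1.separableSpace
  · intro f
    exact hPfix _ (hPdep f)
  · rfl

/-! ### Combinatorics on a set of size `ℵ₁` -/

theorem exists_injective_choice {J T : Type} (hJ : #J ≤ ℵ₁) (B : J → Set T)
    (hB : ∀ j, ¬ (B j).Countable) : ∃ c : J → T, Function.Injective c ∧ ∀ j, c j ∈ B j := by
  classical
  obtain ⟨r, wo, hr⟩ := Cardinal.exists_ord_eq J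
  have hseg : ∀ j, {i | r i j}.Countable := by
    intro j
    have h1 : #{i | r i j} < #J := by
      have h0 := Cardinal.card_typein_lt j hr
      rw [Ordinal.card_typein] at h0
      exact h0
    have h2 : #{i | r i j} ≤ ℵ₀ := by
      have h3 := h1.trans_le hJ
      rw [← succ_aleph0, Order.lt_succ_iff] at h3
      exact h3
    exact (Cardinal.mk_le_aleph0_iff.1 h2)
  have hwf : WellFounded r := wo.wf
  have hT : ∀ j : J, Nonempty T := fun j => by
    by_contra h
    rw [not_nonempty_iff] at h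
    exact hB j (Set.to_countable _)
  let F : ∀ j : J, (∀ i : J, r i j → T) → T := fun j ih =>
    if h : ∃ x ∈ B j, ∀ (i : J) (hij : r i j), ih i hij ≠ x then h.choose else (hT j).some
  let c : J → T := hwf.fix F
  have hc : ∀ j, c j ∈ B j ∧ ∀ i, r i j → c i ≠ c j := by
    intro j
    have h1 : c j = F j (fun i _ => c i) := hwf.fix_eq F j
    have h2 : ∃ x ∈ B j, ∀ (i : J) (_ : r i j), c i ≠ x := by
      by_contra hcon
      push Not at hcon
      apply hB j
      refine ((hseg j).image c).mono ?_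
      intro x hx
      obtain ⟨i, hij, hi⟩ := hcon x hx
      exact ⟨i, hij, hi⟩
    have h3 : c j = h2.choose := by
      rw [h1]
      simp only [F]
      rw [dif_pos h2]
    rw [h3]
    exact ⟨h2.choose_spec.1, fun i hij => h2.choose_spec.2 i hij⟩
  refine ⟨c, ?_, fun j => (hc j).1⟩
  intro i j hij
  rcases trichotomous_of r i j with h | h | h
  · exact absurd hij ((hc j).2 i h)
  · exact h
  · exact absurd hij.symm ((hc i).2 j h)

theorem exists_coloring {I T : Type} (hI : #I ≤ ℵ₁) (hT : #T = ℵ₁) (B : I → Set T)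
    (hB : ∀ i, ¬ (B i).Countable) :
    ∃ col : T → ℕ, ∀ i n, ¬ (B i ∩ {t | col t = n}).Countable := by
  classical
  have hJ : #(I × T × ℕ) ≤ ℵ₁ := by
    rw [mk_prod, mk_prod]
    simp only [lift_id, mk_nat, hT]
    calc #I * (ℵ₁ * ℵ₀) ≤ ℵ₁ * (ℵ₁ * ℵ₁) :=
          mul_le_mul' hI (mul_le_mul' le_rfl (aleph0_le_aleph 1))
      _ = ℵ₁ := by rw [mul_eq_self (aleph0_le_aleph 1), mul_eq_self (aleph0_le_aleph 1)]
  obtain ⟨c, hc, hcB⟩ := exists_injective_choice hJ (fun j => B j.1) (fun j => hB j.1)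
  refine ⟨fun t => if h : ∃ j, c j = t then h.choose.2.2 else 0, fun i n hcount => ?_⟩
  have hsub : Set.range (fun ξ : T => c (i, ξ, n)) ⊆
      B i ∩ {t | (if h : ∃ j, c j = t then h.choose.2.2 else 0) = n} := by
    rintro _ ⟨ξ, rfl⟩
    refine ⟨hcB (i, ξ, n), ?_⟩
    have h : ∃ j, c j = c (i, ξ, n) := ⟨_, rfl⟩
    simp only [Set.mem_ofPred_eq]
    rw [dif_pos h, hc h.choose_spec]
  have h2 : (Set.range (fun ξ : T => c (i, ξ, n))).Countable := hcount.mono hsub
  have hinj : Function.Injective (fun ξ : T => c (i, ξ, n)) := by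
    intro ξ ξ' h
    have := hc h
    simpa using this
  have h3 : Countable T := by
    have := h2.to_subtype
    exact (Set.rangeFactorization_injective.2 hinj).countable
  have h4 : #T ≤ ℵ₀ := Cardinal.mk_le_aleph0_iff.2 h3
  rw [hT] at h4
  exact absurd h4 (not_le.2 aleph0_lt_aleph_one)

theorem refine_root [DecidableEq ι] {T : Type} (H : T → Finset ι) (a : T → ι → Bool)
    (S' : Set ι) (hH : ∀ t, (H t : Set ι) ⊆ S') (n : ℕ) :
    ∀ (U : Set T) (F : Finset ι) (p : ι → Bool), ¬ U.Countable → (F : Set ι) ⊆ S' →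
      (∀ t ∈ U, ∀ i ∈ F, a t i = p i) → (∀ t ∈ U, (H t \ F).card ≤ n) →
      ∃ (F' : Finset ι) (p' : ι → Bool) (U' : Set T), F ⊆ F' ∧ (F' : Set ι) ⊆ S' ∧
        (∀ i ∈ F, p' i = p i) ∧ U' ⊆ U ∧ ¬ U'.Countable ∧ (∀ t ∈ U', ∀ i ∈ F', a t i = p' i) ∧
        ∀ D : Set ι, D.Countable → ∃ t ∈ U', ∀ i ∈ H t, i ∈ D → i ∈ F' := by
  induction n with
  | zero =>
    intro U F p hU hF hp hcard
    refine ⟨F, p, U, subset_rfl, hF, fun _ _ => rfl, subset_rfl, hU, hp, fun D _ => ?_⟩
    obtain ⟨t, ht⟩ : U.Nonempty := by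
      rw [Set.nonempty_iff_ne_empty]
      rintro rfl
      exact hU Set.countable_empty
    refine ⟨t, ht, fun i hi _ => ?_⟩
    by_contra hiF
    have h1 := hcard t ht
    rw [Nat.le_zero, Finset.card_eq_zero] at h1
    have h2 : i ∈ H t \ F := Finset.mem_sdiff.2 ⟨hi, hiF⟩
    rw [h1] at h2
    simp at h2
  | succ n ih =>
    intro U F p hU hF hp hcard
    by_cases hA : ∀ D : Set ι, D.Countable → ∃ t ∈ U, ∀ i ∈ H t, i ∈ D → i ∈ F
    · exact ⟨F, p, U, subset_rfl, hF, fun _ _ => rfl, subset_rfl, hU, hp, hA⟩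
    push Not at hA
    obtain ⟨D, hD, hDU⟩ := hA
    have hcover : U ⊆ ⋃ i ∈ D, ⋃ b : Bool, {t | t ∈ U ∧ i ∈ H t ∧ i ∉ F ∧ a t i = b} := by
      intro t ht
      obtain ⟨i, hi, hiD, hiF⟩ := hDU t ht
      exact Set.mem_biUnion hiD (Set.mem_iUnion.2 ⟨a t i, ht, hi, hiF, rfl⟩)
    obtain ⟨i, hiD, b, hib⟩ : ∃ i ∈ D, ∃ b : Bool,
        ¬ {t | t ∈ U ∧ i ∈ H t ∧ i ∉ F ∧ a t i = b}.Countable := by
      by_contra hcon
      push Not at hcon
      exact hU ((hD.biUnion fun i hi => Set.countable_iUnion fun b => hcon i hi b).mono hcover)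
    set U₁ := {t | t ∈ U ∧ i ∈ H t ∧ i ∉ F ∧ a t i = b} with hU₁
    obtain ⟨t₁, ht₁⟩ : U₁.Nonempty := by
      rw [Set.nonempty_iff_ne_empty]
      intro h
      rw [h] at hib
      exact hib Set.countable_empty
    have hiF : i ∉ F := ht₁.2.2.1
    have hins : ((insert i F : Finset ι) : Set ι) ⊆ S' := by
      intro l hl
      rw [Finset.coe_insert] at hl
      rcases hl with rfl | hl
      · exact hH t₁ ht₁.2.1
      · exact hF hl
    obtain ⟨F', p', U', h1, h2, h3, h4, h5, h6, h7⟩ := ih U₁ (insert i F)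
      (Function.update p i b) hib hins
      (by
        intro t ht l hl
        rw [Finset.mem_insert] at hl
        rcases hl with rfl | hl
        · rw [Function.update_self]; exact ht.2.2.2
        · have : l ≠ i := by rintro rfl; exact hiF hl
          rw [Function.update_of_ne this]
          exact hp t ht.1 l hl)
      (by
        intro t ht
        have h8 := hcard t ht.1
        have h9 : (H t \ insert i F) = (H t \ F).erase i := by
          ext l
          simp only [Finset.mem_sdiff, Finset.mem_insert, Finset.mem_erase]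
          tauto
        rw [h9, Finset.card_erase_of_mem (Finset.mem_sdiff.2 ⟨ht.2.1, hiF⟩)]
        omega)
    refine ⟨F', p', U', fun l hl => h1 (Finset.mem_insert_of_mem hl), h2, fun l hl => ?_,
      fun t ht => (h4 ht).1, h5, h6, h7⟩
    rw [h3 l (Finset.mem_insert_of_mem hl), Function.update_of_ne]
    rintro rfl
    exact hiF hl

theorem exists_compat [DecidableEq ι] {T : Type} (H : T → Finset ι) (a : T → ι → Bool)
    (S' : Set ι) (hH : ∀ t, (H t : Set ι) ⊆ S') (col : T → ℕ)
    (hcol : ∀ (F : Finset ι) (p : ι → Bool), (F : Set ι) ⊆ S' →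
      ¬ {t | ∀ i ∈ F, a t i = p i}.Countable →
      ∀ n, ¬ ({t | ∀ i ∈ F, a t i = p i} ∩ {t | col t = n}).Countable) (k : ℕ) :
    ∀ (m : ℕ) (F : Finset ι) (p : ι → Bool), (F : Set ι) ⊆ S' →
      ¬ {t | ∀ i ∈ F, a t i = p i}.Countable →
      ∃ τ : ℕ → T, (∀ j < k, col (τ j) = m + j ∧ ∀ i ∈ F, a (τ j) i = p i) ∧
        ∀ j < k, ∀ l < k, ∀ i ∈ H (τ j), i ∈ H (τ l) → a (τ j) i = a (τ l) i := by
  induction k with
  | zero =>
    intro m F p _ hU
    obtain ⟨t, _⟩ : {t | ∀ i ∈ F, a t i = p i}.Nonempty := by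
      rw [Set.nonempty_iff_ne_empty]
      intro h
      rw [h] at hU
      exact hU Set.countable_empty
    exact ⟨fun _ => t, fun j hj => by omega, fun j hj => by omega⟩
  | succ k ih =>
    intro m F p hF hU
    have hU2 := hcol F p hF hU m
    have hcover : ({t | ∀ i ∈ F, a t i = p i} ∩ {t | col t = m}) ⊆
        ⋃ n : ℕ, {t | ((∀ i ∈ F, a t i = p i) ∧ col t = m) ∧ (H t \ F).card ≤ n} := by
      intro t ht
      exact Set.mem_iUnion.2 ⟨_, ht, le_rfl⟩
    obtain ⟨n, hn⟩ : ∃ n : ℕ,
        ¬ {t | ((∀ i ∈ F, a t i = p i) ∧ col t = m) ∧ (H t \ F).card ≤ n}.Countable := by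
      by_contra hcon
      push Not at hcon
      exact hU2 ((Set.countable_iUnion hcon).mono hcover)
    obtain ⟨F', p', U', h1, h2, h3, h4, h5, h6, h7⟩ := refine_root H a S' hH n _ F p hn hF
      (fun t ht => ht.1.1) (fun t ht => ht.2)
    have hgood : ¬ {t | ∀ i ∈ F', a t i = p' i}.Countable := fun hc => h5 (hc.mono h6)
    obtain ⟨τ, hτ1, hτ2⟩ := ih (m + 1) F' p' h2 hgood
    obtain ⟨t, htU, htH⟩ := h7 (⋃ j ∈ Finset.range k, (H (τ j) : Set ι))
      (Set.Countable.biUnion (Set.to_countable _) fun j _ => (H (τ j)).countable_toSet)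
    have htF' : ∀ j < k, ∀ i ∈ H t, i ∈ H (τ j) → a t i = a (τ j) i := by
      intro j hj i hi hij
      have h8 : i ∈ F' := htH i hi (Set.mem_biUnion (Finset.mem_coe.2 (Finset.mem_range.2 hj)) hij)
      rw [h6 t htU i h8, (hτ1 j hj).2 i h8]
    refine ⟨fun j => Nat.casesOn j t τ, ?_, ?_⟩
    · intro j hj
      cases j with
      | zero =>
        refine ⟨(h4 htU).1.2, fun i hi => (h4 htU).1.1 i hi⟩
      | succ j =>
        have h9 := hτ1 j (by omega)
        refine ⟨by rw [h9.1]; ring, fun i hi => ?_⟩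
        rw [h9.2 i (h1 hi), h3 i hi]
    · intro j hj l hl i hi hil
      cases j with
      | zero =>
        cases l with
        | zero => rfl
        | succ l => exact htF' l (by omega) i hi hil
      | succ j =>
        cases l with
        | zero => exact (htF' j (by omega) i hil hi).symm
        | succ l => exact hτ2 j (by omega) l (by omega) i hi hil

/-! ### Density characters -/

theorem dens_le_mk {Y : Type} [TopologicalSpace Y] {s : Set Y} (hs : Dense s) : dens Y ≤ #s :=
  csInf_le' ⟨s, hs, rfl⟩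

theorem exists_dense_eq_dens (Y : Type) [TopologicalSpace Y] : ∃ s : Set Y, Dense s ∧ #s = dens Y := by
  have h : {c : Cardinal.{0} | ∃ s : Set Y, Dense s ∧ Cardinal.mk s = c}.Nonempty :=
    ⟨#(Set.univ : Set Y), Set.univ, dense_univ, rfl⟩
  exact csInf_mem h

theorem dens_le_of_isometry {A M : Type} [PseudoMetricSpace A] [PseudoMetricSpace M] (e : A → M)
    (he : Isometry e) (D : Set M) (hAD : Set.range e ⊆ closure D) (κ : Cardinal.{0})
    (hκ : ℵ₀ ≤ κ) (hD : #D ≤ κ) : dens A ≤ κ := by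
  classical
  rcases isEmpty_or_nonempty A with hA | ⟨⟨x0⟩⟩
  · refine (dens_le_mk (s := ∅) ?_).trans ?_
    · intro x; exact hA.elim x
    · simp
  let q : D × ℕ → A := fun z =>
    if h : ∃ y : A, dist (e y) z.1 < 1 / ((z.2 : ℝ) + 1) then h.choose else x0
  have hdense : Dense (Set.range q) := by
    intro x
    rw [Metric.mem_closure_iff]
    intro ε hε
    obtain ⟨n, hn⟩ := exists_nat_one_div_lt (half_pos hε)
    obtain ⟨d, hd, hxd⟩ := Metric.mem_closure_iff.1 (hAD ⟨x, rfl⟩) (1 / ((n : ℝ) + 1))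
      (by positivity)
    have h : ∃ y : A, dist (e y) d < 1 / ((n : ℝ) + 1) := ⟨x, hxd⟩
    refine ⟨q (⟨d, hd⟩, n), ⟨_, rfl⟩, ?_⟩
    have h2 : q (⟨d, hd⟩, n) = h.choose := by
      simp only [q]
      rw [dif_pos h]
    rw [h2, ← he.dist_eq]
    have h3 := h.choose_spec
    calc dist (e x) (e h.choose) ≤ dist (e x) d + dist d (e h.choose) :=
          dist_triangle _ _ _
      _ < ε := by
          rw [dist_comm d]
          linarith
  refine (dens_le_mk hdense).trans (mk_range_le.trans ?_)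
  rw [mk_prod, lift_id, lift_id, mk_nat]
  calc #D * ℵ₀ ≤ κ * κ := mul_le_mul' hD hκ
    _ = κ := mul_eq_self hκ

/-- The subspace of `vanish 𝕜 a` of functions depending only on the coordinates in `S`. -/
def sub (𝕜 : Type) [RCLike 𝕜] {ι T : Type} (a : T → ι → Bool) (S : Set ι) :
    Submodule 𝕜 (vanish 𝕜 a) where
  carrier := {f | DepOn S f.1}
  add_mem' := fun {f g} hf hg x y hxy => by
    change f.1 x + g.1 x = f.1 y + g.1 y
    rw [hf x y hxy, hg x y hxy]
  zero_mem' := fun x y _ => rfl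
  smul_mem' := fun c f hf x y hxy => by
    change c • f.1 x = c • f.1 y
    rw [hf x y hxy]

theorem mem_sub {T : Type} {a : T → ι → Bool} {S : Set ι} {f : vanish 𝕜 a} :
    f ∈ sub 𝕜 a S ↔ DepOn S f.1 := Iff.rfl

theorem isClosed_sub {T : Type} (a : T → ι → Bool) (S : Set ι) :
    IsClosed (sub 𝕜 a S : Set (vanish 𝕜 a)) :=
  (isClosed_depOn S).preimage continuous_subtype_val

theorem exists_dense_depOn [Nonempty ι] {T : Type} (σ : T → ι) (hσ : Function.Injective σ)
    (hT : #T = ℵ₁) :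
    ∃ D : Set C(ι → Bool, 𝕜), #D ≤ ℵ₁ ∧ {f | DepOn (Set.range σ) f} ⊆ closure D := by
  classical
  have h1 : ∀ F : Finset T, ∃ D : Set C(ι → Bool, 𝕜), D.Countable ∧
      {f : C(ι → Bool, 𝕜) | DepOn (σ '' F) f} ⊆ closure D :=
    fun F => isSeparable_depOn _ ((Set.Finite.image _ F.finite_toSet).countable)
  choose D hDc hD using h1
  refine ⟨⋃ F, D F, ?_, ?_⟩
  · have h2 := mk_iUnion_le (fun F => D F)
    refine h2.trans ?_
    have h3 : #(Finset T) = ℵ₁ := by
      have : Infinite T := by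
        rw [Cardinal.infinite_iff, hT]
        exact aleph0_le_aleph 1
      rw [mk_finset_of_infinite, hT]
    rw [h3]
    calc ℵ₁ * ⨆ F, #(D F) ≤ ℵ₁ * ℵ₁ := by
          refine mul_le_mul' le_rfl (ciSup_le' fun F => ?_)
          exact (Cardinal.mk_le_aleph0_iff.2 (hDc F).to_subtype).trans (aleph0_le_aleph 1)
      _ = ℵ₁ := mul_eq_self (aleph0_le_aleph 1)
  · intro f hf
    rw [Metric.mem_closure_iff]
    intro ε hε
    obtain ⟨G, hG⟩ := exists_finset_unif f (ε / 2) (by positivity)
    set F : Finset T := G.preimage σ hσ.injOn with hF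
    set m : C(ι → Bool, ι → Bool) := ⟨fun x i => if i ∈ σ '' F then x i else false, by
      refine continuous_pi fun i => ?_
      by_cases h : i ∈ σ '' (F : Set T)
      · simp only [if_pos h]; exact continuous_apply i
      · simp only [if_neg h]; exact continuous_const⟩ with hm
    have hgdep : DepOn (σ '' F) (f.comp m) := by
      intro x y hxy
      have : m x = m y := by
        funext i
        simp only [hm, ContinuousMap.coe_mk]
        by_cases h : i ∈ σ '' (F : Set T)
        · rw [if_pos h, if_pos h, hxy i h]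
        · rw [if_neg h, if_neg h]
      rw [ContinuousMap.comp_apply, ContinuousMap.comp_apply, this]
    have hdist : dist f (f.comp m) ≤ ε / 2 := by
      rw [dist_eq_norm, ContinuousMap.norm_le _ (by positivity)]
      intro x
      rw [ContinuousMap.sub_apply, ContinuousMap.comp_apply]
      set z : ι → Bool := fun i => if i ∈ Set.range σ then x i else m x i with hz
      have h4 : f z = f x := by
        apply hf
        intro i hi
        simp only [hz, if_pos hi]
      rw [← h4]
      refine (hG z (m x) fun i hi => ?_).le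
      by_cases h : i ∈ Set.range σ
      · simp only [hz, if_pos h]
        obtain ⟨t, rfl⟩ := h
        have ht : σ t ∈ σ '' (F : Set T) := by
          refine ⟨t, ?_, rfl⟩
          rw [hF, Finset.mem_coe, Finset.mem_preimage]
          exact hi
        simp only [hm, ContinuousMap.coe_mk, if_pos ht]
      · simp only [hz, if_neg h]
    obtain ⟨d, hd, hdd⟩ := Metric.mem_closure_iff.1 (hD F hgdep) (ε / 2) (by positivity)
    refine ⟨d, Set.mem_iUnion.2 ⟨F, hd⟩, ?_⟩
    calc dist f d ≤ dist f (f.comp m) + dist (f.comp m) d := dist_triangle _ _ _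
      _ < ε := by linarith

theorem dens_sub_le [Nonempty ι] {T : Type} (a : T → ι → Bool) (σ : T → ι)
    (hσ : Function.Injective σ) (hT : #T = ℵ₁) : dens (sub 𝕜 a (Set.range σ)) ≤ ℵ₁ := by
  obtain ⟨D, hDcard, hD⟩ := exists_dense_depOn (𝕜 := 𝕜) σ hσ hT
  refine dens_le_of_isometry (fun f : sub 𝕜 a (Set.range σ) => (f.1.1 : C(ι → Bool, 𝕜)))
    (Isometry.of_dist_eq fun _ _ => rfl) D ?_ ℵ₁ (aleph0_le_aleph 1) hDcard
  rintro _ ⟨f, rfl⟩
  exact hD f.2

/-- The coordinate function `x i`, with values `0` and `1`. -/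
noncomputable def ee (𝕜 : Type) [RCLike 𝕜] {ι : Type} (i : ι) : C(ι → Bool, 𝕜) :=
  ⟨fun x => if x i = true then 1 else 0, continuous_of_finite {i} _ fun x y h => by
    rw [h i (Finset.mem_singleton_self i)]⟩

theorem ee_apply (i : ι) (x : ι → Bool) : ee 𝕜 i x = if x i = true then 1 else 0 := rfl

theorem le_dens_sub {T : Type} (a : T → ι → Bool) (σ : T → ι)
    (haσ : ∀ t s, a t (σ s) = true ↔ t = s) (hT : #T = ℵ₁) :
    ℵ₁ ≤ dens (sub 𝕜 a (Set.range σ)) := by
  classical
  have hσ : Function.Injective σ := by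
    intro s t h
    have h1 := (haσ s s).2 rfl
    rw [h] at h1
    exact (haσ s t).1 h1
  obtain ⟨D, hD, hDcard⟩ := exists_dense_eq_dens (sub 𝕜 a (Set.range σ))
  rw [← hDcard]
  have hTinf : Infinite T := by
    rw [Cardinal.infinite_iff, hT]
    exact aleph0_le_aleph 1
  obtain ⟨s0⟩ := hTinf.nonempty
  have hw0 : ∀ t : {t : T // t ≠ s0}, ee 𝕜 (σ s0) * ee 𝕜 (σ t) ∈ vanish 𝕜 a := by
    intro t u
    rw [ContinuousMap.mul_apply, ee_apply, ee_apply]
    by_cases h1 : a u (σ s0) = true
    · have h2 := (haσ _ _).1 h1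
      have h3 : ¬ a u (σ t) = true := by
        intro h4
        exact t.2 (((haσ _ _).1 h4).symm.trans h2)
      rw [if_neg h3, mul_zero]
    · rw [if_neg h1, zero_mul]
  have hw1 : ∀ t : {t : T // t ≠ s0}, (⟨_, hw0 t⟩ : vanish 𝕜 a) ∈ sub 𝕜 a (Set.range σ) := by
    intro t x y hxy
    change (ee 𝕜 (σ s0) * ee 𝕜 (σ t)) x = (ee 𝕜 (σ s0) * ee 𝕜 (σ t)) y
    rw [ContinuousMap.mul_apply, ContinuousMap.mul_apply, ee_apply, ee_apply, ee_apply, ee_apply,
      hxy _ ⟨_, rfl⟩, hxy _ ⟨_, rfl⟩]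
  set w : {t : T // t ≠ s0} → sub 𝕜 a (Set.range σ) := fun t => ⟨⟨_, hw0 t⟩, hw1 t⟩ with hw
  have hsep : ∀ t u : {t : T // t ≠ s0}, t ≠ u → 1 ≤ dist (w t) (w u) := by
    intro t u htu
    have h1 : dist (w t) (w u) =
        dist (ee 𝕜 (σ s0) * ee 𝕜 (σ t)) (ee 𝕜 (σ s0) * ee 𝕜 (σ u)) := rfl
    rw [h1, dist_eq_norm]
    set x : ι → Bool := fun i => decide (i = σ s0 ∨ i = σ t) with hx
    refine le_trans (le_of_eq ?_) (ContinuousMap.norm_coe_le_norm _ x)
    rw [ContinuousMap.sub_apply, ContinuousMap.mul_apply, ContinuousMap.mul_apply, ee_apply,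
      ee_apply, ee_apply]
    have h2 : x (σ s0) = true := by simp [hx]
    have h3 : x (σ t) = true := by simp [hx]
    have h4 : ¬ x (σ u) = true := by
      simp only [hx, decide_eq_true_eq, not_or]
      exact ⟨fun h => u.2 (hσ h), fun h => htu (Subtype.ext (hσ h).symm)⟩
    rw [if_pos h2, if_pos h3, if_neg h4]
    simp
  have hd : ∀ t, ∃ d ∈ D, dist (w t) d < 1 / 2 := fun t =>
    Metric.mem_closure_iff.1 (hD (w t)) (1 / 2) (by norm_num)
  choose d hdD hdw using hd
  have hinj : Function.Injective (fun t => (⟨d t, hdD t⟩ : D)) := by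
    intro t u htu
    by_contra hne
    have h1 := hsep t u hne
    have h2 : d t = d u := congrArg Subtype.val htu
    have h3 : dist (w t) (w u) ≤ dist (w t) (d t) + dist (d t) (w u) := dist_triangle _ _ _
    have h4 := hdw t
    have h5 := hdw u
    rw [← h2, dist_comm] at h5
    linarith
  have h1 := Cardinal.mk_le_of_injective hinj
  refine le_trans (le_of_eq ?_) h1
  have h2 : #({s0}ᶜ : Set T) = #T := Cardinal.mk_compl_of_infinite {s0} (by
    rw [mk_singleton, hT]
    exact lt_of_lt_of_le one_lt_aleph0 (aleph0_le_aleph 1))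
  rw [← hT, ← h2]
  rfl

end Cube

/-! ### The example -/

section Example

variable {𝕜 : Type} [RCLike 𝕜] {T : Type}

open Classical in
/-- The point of the cube attached to `t`: its coordinate at a subset of `T` tells whether `t`
belongs to this subset. -/
noncomputable def pt (T : Type) (t : T) : Set T → Bool := fun γ => decide (t ∈ γ)

/-- The coordinate attached to `t`. -/
def sing (T : Type) (t : T) : Set T := {t}

theorem pt_eq_true (t : T) (γ : Set T) : pt T t γ = true ↔ t ∈ γ := by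
  unfold pt; simp

theorem pt_sing (t s : T) : pt T t (sing T s) = true ↔ t = s := by
  rw [pt_eq_true]; rfl

theorem uncountable_univ (hT : #T = ℵ₁) : ¬ (Set.univ : Set T).Countable := by
  intro h
  rw [Set.countable_univ_iff] at h
  have h1 : #T ≤ ℵ₀ := Cardinal.mk_le_aleph0_iff.2 h
  rw [hT] at h1
  exact absurd h1 (not_le.2 aleph0_lt_aleph_one)

/-- A colouring splitting all uncountable patterns. -/
theorem exists_split (hT : #T = ℵ₁) {ι : Type} (a : T → ι → Bool) (S' : Set ι) (hS' : #S' ≤ ℵ₁) :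
    ∃ col : T → ℕ, ∀ (F : Finset ι) (p : ι → Bool), (F : Set ι) ⊆ S' →
      ¬ {t | ∀ i ∈ F, a t i = p i}.Countable →
      ∀ n, ¬ ({t | ∀ i ∈ F, a t i = p i} ∩ {t | col t = n}).Countable := by
  classical
  set Bq : Finset S' × Finset S' → Set T := fun q =>
    {t | ∀ i ∈ q.1, a t (i : ι) = decide (i ∈ q.2)} with hBq
  have hfin : #(Finset S') ≤ ℵ₁ := by
    rcases finite_or_infinite S' with hf | hi
    · exact (Cardinal.mk_le_aleph0_iff.2 inferInstance).trans (aleph0_le_aleph 1)
    · rw [mk_finset_of_infinite]; exact hS'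
  have hI : #{q // ¬ (Bq q).Countable} ≤ ℵ₁ := by
    refine (Cardinal.mk_subtype_le _).trans ?_
    rw [mk_prod, lift_id]
    calc #(Finset S') * #(Finset S') ≤ ℵ₁ * ℵ₁ := mul_le_mul' hfin hfin
      _ = ℵ₁ := mul_eq_self (aleph0_le_aleph 1)
  obtain ⟨col, hcol⟩ := exists_coloring hI hT (fun q => Bq q.1) (fun q => q.2)
  refine ⟨col, fun F p hF hun n => ?_⟩
  set q : Finset S' × Finset S' :=
    (F.subtype (· ∈ S'), (F.subtype (· ∈ S')).filter (fun i => p i = true)) with hq
  have heq : {t | ∀ i ∈ F, a t i = p i} = Bq q := by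
    ext t
    simp only [hBq, Set.mem_ofPred_eq]
    constructor
    · intro h i hi
      have hi' : (i : ι) ∈ F := by
        rw [hq] at hi
        exact Finset.mem_subtype.1 hi
      rw [h i hi']
      have : i ∈ q.2 ↔ p i = true := by
        rw [hq]
        simp only [Finset.mem_filter, Finset.mem_subtype]
        exact ⟨fun h => h.2, fun h => ⟨hi', h⟩⟩
      by_cases hp : p i = true
      · rw [hp]; symm; rw [decide_eq_true_eq]; exact this.2 hp
      · have hp' : p i = false := by simpa using hp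
        rw [hp']; symm; rw [decide_eq_false_iff_not]; exact fun h => hp (this.1 h)
    · intro h i hi
      have h1 := h ⟨i, hF hi⟩ (by rw [hq]; exact Finset.mem_subtype.2 hi)
      rw [h1]
      have : (⟨i, hF hi⟩ : S') ∈ q.2 ↔ p i = true := by
        rw [hq]
        simp only [Finset.mem_filter, Finset.mem_subtype]
        exact ⟨fun h => h.2, fun h => ⟨hi, h⟩⟩
      by_cases hp : p i = true
      · rw [hp]; rw [decide_eq_true_eq]; exact this.2 hp
      · have hp' : p i = false := by simpa using hp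
        rw [hp']; rw [decide_eq_false_iff_not]; exact fun h => hp (this.1 h)
  rw [heq] at hun ⊢
  exact hcol ⟨q, hun⟩ n

/-- Localising a function that vanishes at a point. -/
theorem exists_local {ι : Type} [DecidableEq ι] (S' : Set ι) (f : C(ι → Bool, 𝕜))
    (hf : DepOn S' f) (b : ι → Bool) (hb : f b = 0) :
    ∃ H : Finset ι, (H : Set ι) ⊆ S' ∧ ∀ x : ι → Bool, (∀ i ∈ H, x i = b i) → ‖f x‖ < 1 / 2 := by
  classical
  obtain ⟨F, hF⟩ := exists_finset_unif f (1 / 2) (by norm_num)
  refine ⟨F.filter (· ∈ S'), ?_, fun x hx => ?_⟩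
  · intro i hi
    rw [Finset.mem_coe, Finset.mem_filter] at hi
    exact hi.2
  · set z : ι → Bool := fun i => if i ∈ S' then x i else b i with hz
    have h1 : f z = f x := by
      apply hf
      intro i hi
      simp only [hz, if_pos hi]
    have h2 := hF z b (fun i hi => by
      by_cases h : i ∈ S'
      · simp only [hz, if_pos h]
        exact hx i (Finset.mem_filter.2 ⟨hi, h⟩)
      · simp only [hz, if_neg h])
    rwa [hb, sub_zero, h1] at h2

theorem not_complemented (hT : #T = ℵ₁) (V : Submodule 𝕜 (vanish 𝕜 (pt T)))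
    (hV : IsComplementedIn 𝕜 (vanish 𝕜 (pt T)) V)
    (hW : sub 𝕜 (pt T) (Set.range (sing T)) ≤ V) : ℵ₁ < dens V := by
  classical
  by_contra hcon
  rw [not_lt] at hcon
  obtain ⟨P, hPP, hPV⟩ := hV
  have hPmem : ∀ f, P f ∈ V := fun f => by
    have : P f ∈ (V : Set (vanish 𝕜 (pt T))) := by rw [← hPV]; exact ⟨f, rfl⟩
    exact this
  have hPfix : ∀ f ∈ V, P f = f := by
    intro f hf
    have : f ∈ Set.range P := by rw [hPV]; exact hf
    obtain ⟨g, rfl⟩ := this
    exact hPP g
  -- the coordinates on which `V` depends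
  obtain ⟨D, hD, hDcard⟩ := exists_dense_eq_dens V
  choose S hSc hS using fun f : C(Set T → Bool, 𝕜) => exists_countable_depOn f
  set S' : Set (Set T) := Set.range (sing T) ∪ ⋃ d : D, S (d : V).1.1 with hS'def
  have hS'card : #S' ≤ ℵ₁ := by
    refine (mk_union_le _ _).trans ?_
    have h1 : #(Set.range (sing T)) ≤ ℵ₁ := mk_range_le.trans hT.le
    have h2 : #(⋃ d : D, S (d : V).1.1 : Set (Set T)) ≤ ℵ₁ := by
      refine (mk_iUnion_le _).trans ?_
      calc #D * ⨆ d : D, #(S (d : V).1.1) ≤ ℵ₁ * ℵ₁ := by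
            refine mul_le_mul' (hDcard.le.trans hcon) (ciSup_le' fun d => ?_)
            exact (Cardinal.mk_le_aleph0_iff.2 (hSc _).to_subtype).trans (aleph0_le_aleph 1)
        _ = ℵ₁ := mul_eq_self (aleph0_le_aleph 1)
    calc #(Set.range (sing T)) + #(⋃ d : D, S (d : V).1.1 : Set (Set T)) ≤ ℵ₁ + ℵ₁ :=
          add_le_add h1 h2
      _ = ℵ₁ := add_eq_self (aleph0_le_aleph 1)
  have hVdep : ∀ v ∈ V, DepOn S' (v : vanish 𝕜 (pt T)).1 := by
    intro v hv
    have hcl : IsClosed {u : V | DepOn S' ((u : vanish 𝕜 (pt T)) : C(Set T → Bool, 𝕜))} :=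
      (isClosed_depOn S').preimage (continuous_subtype_val.comp continuous_subtype_val)
    have hsub : D ⊆ {u : V | DepOn S' ((u : vanish 𝕜 (pt T)) : C(Set T → Bool, 𝕜))} := by
      intro d hd
      refine DepOn.mono ?_ (hS _)
      intro i hi
      exact Or.inr (Set.mem_iUnion.2 ⟨⟨d, hd⟩, hi⟩)
    exact hcl.closure_subset_iff.2 hsub (hD ⟨v, hv⟩)
  obtain ⟨col, hcol⟩ := exists_split hT (pt T) S' hS'card
  -- the functions `g n`
  let Tn : ℕ → Set T := fun n => {t | col t = n}
  let g : ℕ → C(Set T → Bool, 𝕜) := fun n =>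
    ⟨fun x => if x (Tn n) = true ∧ ∀ i < n, x (Tn i) = false then 1 else 0,
      continuous_of_finite ((Finset.range (n + 1)).image Tn) _ fun x y h => by
        have h1 : ∀ i < n + 1, x (Tn i) = y (Tn i) := fun i hi =>
          h _ (Finset.mem_image.2 ⟨i, Finset.mem_range.2 hi, rfl⟩)
        have h2 : (x (Tn n) = true ∧ ∀ i < n, x (Tn i) = false) ↔
            (y (Tn n) = true ∧ ∀ i < n, y (Tn i) = false) := by
          rw [h1 n (by omega)]
          constructor
          · rintro ⟨h3, h4⟩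
            exact ⟨h3, fun i hi => by rw [← h1 i (by omega)]; exact h4 i hi⟩
          · rintro ⟨h3, h4⟩
            exact ⟨h3, fun i hi => by rw [h1 i (by omega)]; exact h4 i hi⟩
        simp only [h2]⟩
  have hg : ∀ n x, g n x = if x (Tn n) = true ∧ ∀ i < n, x (Tn i) = false then 1 else 0 :=
    fun n x => rfl
  have hh : ∀ t : T, (g (col t) - 1) * ee 𝕜 (sing T t) ∈ vanish 𝕜 (pt T) := by
    intro t s
    rw [ContinuousMap.mul_apply, ContinuousMap.sub_apply, ee_apply, ContinuousMap.one_apply, hg]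
    by_cases hst : pt T s (sing T t) = true
    · have : s = t := (pt_sing s t).1 hst
      subst this
      rw [if_pos, sub_self, zero_mul]
      refine ⟨(pt_eq_true _ _).2 rfl, fun i hi => ?_⟩
      have : ¬ pt T s (Tn i) = true := by
        rw [pt_eq_true]
        intro h
        have : col s = i := h
        omega
      simpa using this
    · rw [if_neg hst, mul_zero]
  let h : T → vanish 𝕜 (pt T) := fun t => ⟨_, hh t⟩
  have hloc : ∀ t : T, ∃ H : Finset (Set T), (H : Set (Set T)) ⊆ S' ∧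
      ∀ x : Set T → Bool, (∀ i ∈ H, x i = pt T t i) → ‖(P (h t)).1 x‖ < 1 / 2 :=
    fun t => exists_local S' _ (hVdep _ (hPmem (h t))) (pt T t) ((P (h t)).2 t)
  choose H0 hH0S hH0 using hloc
  let H : T → Finset (Set T) := fun t => insert (sing T t) (H0 t)
  have hHS : ∀ t, (H t : Set (Set T)) ⊆ S' := by
    intro t i hi
    simp only [H, Finset.coe_insert] at hi
    rcases hi with rfl | hi
    · exact Or.inl ⟨t, rfl⟩
    · exact hH0S t hi
  obtain ⟨k, hk⟩ := exists_nat_gt (2 * ‖P‖ + 2)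
  have hk1 : 1 ≤ k := by
    have : (0 : ℝ) < k := lt_trans (by positivity) hk
    exact_mod_cast this
  obtain ⟨τ, hτ1, hτ2⟩ := exists_compat H (pt T) S' hHS col hcol k 0 ∅ (fun _ => false)
    (by simp) (by simpa using uncountable_univ hT)
  have hτcol : ∀ j < k, col (τ j) = j := fun j hj => by
    rw [(hτ1 j hj).1, zero_add]
  have hτinj : ∀ j < k, ∀ l < k, τ j = τ l → j = l := fun j hj l hl hjl => by
    rw [← hτcol j hj, ← hτcol l hl, hjl]
  -- the point `x`
  let x : Set T → Bool := fun i =>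
    if hx : ∃ j, j < k ∧ i ∈ H (τ j) then pt T (τ hx.choose) i else false
  have hx : ∀ j < k, ∀ i ∈ H (τ j), x i = pt T (τ j) i := by
    intro j hj i hi
    have hex : ∃ j, j < k ∧ i ∈ H (τ j) := ⟨j, hj, hi⟩
    simp only [x]
    rw [dif_pos hex]
    exact hτ2 _ hex.choose_spec.1 j hj i hex.choose_spec.2 hi
  have hxs : ∀ j < k, x (sing T (τ j)) = true := by
    intro j hj
    rw [hx j hj _ (Finset.mem_insert_self _ _), pt_sing]
  -- the functions `f1` and `w`
  let f1 : C(Set T → Bool, 𝕜) :=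
    ⟨fun y => if ∃ j < k, y (sing T (τ j)) = true then 1 else 0,
      continuous_of_finite ((Finset.range k).image fun j => sing T (τ j)) _ fun y z hyz => by
        have h1 : ∀ i < k, y (sing T (τ i)) = z (sing T (τ i)) := fun i hi =>
          hyz _ (Finset.mem_image.2 ⟨i, Finset.mem_range.2 hi, rfl⟩)
        have h2 : (∃ j < k, y (sing T (τ j)) = true) ↔ (∃ j < k, z (sing T (τ j)) = true) := by
          constructor
          · rintro ⟨j, hj, h3⟩
            exact ⟨j, hj, by rw [← h1 j hj]; exact h3⟩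
          · rintro ⟨j, hj, h3⟩
            exact ⟨j, hj, by rw [h1 j hj]; exact h3⟩
        simp only [h2]⟩
  have hf1 : ∀ y, f1 y = if ∃ j < k, y (sing T (τ j)) = true then 1 else 0 := fun y => rfl
  have hw0 : (∑ j ∈ Finset.range k, ee 𝕜 (sing T (τ j))) - f1 ∈ vanish 𝕜 (pt T) := by
    intro s
    rw [ContinuousMap.sub_apply, ContinuousMap.sum_apply, hf1]
    simp only [ee_apply, pt_sing]
    by_cases hs : ∃ j < k, s = τ j
    · rw [if_pos hs]
      obtain ⟨j, hj, rfl⟩ := hs
      rw [Finset.sum_eq_single j]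
      · simp
      · intro l hl hlj
        rw [if_neg]
        intro heq
        exact hlj (hτinj l (Finset.mem_range.1 hl) j hj heq.symm)
      · intro hj'; exact absurd (Finset.mem_range.2 hj) hj'
    · rw [if_neg hs, Finset.sum_eq_zero, sub_zero]
      intro j hj
      rw [if_neg]
      intro heq
      exact hs ⟨j, Finset.mem_range.1 hj, heq⟩
  let w : vanish 𝕜 (pt T) := ⟨_, hw0⟩
  have hwapp : ∀ y, w.1 y = (∑ j ∈ Finset.range k, ee 𝕜 (sing T (τ j)) y) - f1 y := by
    intro y
    change ((∑ j ∈ Finset.range k, ee 𝕜 (sing T (τ j))) - f1) y = _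
    rw [ContinuousMap.sub_apply, ContinuousMap.sum_apply]
  have hwV : w ∈ V := by
    apply hW
    intro y z hyz
    rw [hwapp, hwapp, hf1, hf1]
    simp only [ee_apply]
    have h1 : ∀ i, y (sing T (τ i)) = z (sing T (τ i)) := fun i => hyz _ ⟨_, rfl⟩
    simp only [h1]
  let u : vanish 𝕜 (pt T) := (∑ j ∈ Finset.range k, h (τ j)) + w
  have huapp : ∀ y, u.1 y = (∑ j ∈ Finset.range k, g j y * ee 𝕜 (sing T (τ j)) y) - f1 y := by
    intro y
    have h1 : u.1 y = (∑ j ∈ Finset.range k, (h (τ j)).1 y) + w.1 y := by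
      change ((∑ j ∈ Finset.range k, h (τ j)).1 + w.1) y = _
      rw [ContinuousMap.add_apply]
      congr 1
      rw [Submodule.coe_sum, ContinuousMap.sum_apply]
    have h2 : ∀ j ∈ Finset.range k, (h (τ j)).1 y =
        g j y * ee 𝕜 (sing T (τ j)) y - ee 𝕜 (sing T (τ j)) y := by
      intro j hj
      change ((g (col (τ j)) - 1) * ee 𝕜 (sing T (τ j))) y = _
      rw [hτcol j (Finset.mem_range.1 hj), ContinuousMap.mul_apply, ContinuousMap.sub_apply,
        ContinuousMap.one_apply]
      ring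
    rw [h1, Finset.sum_congr rfl h2, Finset.sum_sub_distrib, hwapp]
    ring
  have hunorm : ‖u‖ ≤ 1 := by
    change ‖u.1‖ ≤ 1
    rw [ContinuousMap.norm_le _ zero_le_one]
    intro y
    rw [huapp]
    by_cases hex : ∃ j < k, (y (Tn j) = true ∧ ∀ i < j, y (Tn i) = false) ∧
        y (sing T (τ j)) = true
    · obtain ⟨j, hj, hj1, hj2⟩ := hex
      rw [Finset.sum_eq_single j]
      · rw [hg, ee_apply, if_pos hj1, if_pos hj2, hf1, if_pos ⟨j, hj, hj2⟩]
        simp
      · intro l _ hlj
        rw [hg, if_neg, zero_mul]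
        rintro ⟨h3, h4⟩
        rcases lt_trichotomy l j with h5 | h5 | h5
        · have := hj1.2 l h5
          rw [h3] at this
          exact absurd this (by decide)
        · exact hlj h5
        · have := h4 j h5
          rw [hj1.1] at this
          exact absurd this (by decide)
      · intro hj'; exact absurd (Finset.mem_range.2 hj) hj'
    · rw [Finset.sum_eq_zero]
      · rw [hf1]
        split_ifs <;> simp
      · intro j hj
        rw [hg, ee_apply]
        by_cases h3 : y (Tn j) = true ∧ ∀ i < j, y (Tn i) = false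
        · rw [if_neg (fun h4 => hex ⟨j, Finset.mem_range.1 hj, h3, h4⟩), mul_zero]
        · rw [if_neg h3, zero_mul]
  have hPu : (P u).1 x = (∑ j ∈ Finset.range k, (P (h (τ j))).1 x) + ((k : 𝕜) - 1) := by
    have h1 : P u = (∑ j ∈ Finset.range k, P (h (τ j))) + w := by
      simp only [u]
      rw [map_add, map_sum, hPfix w hwV]
    rw [h1]
    change ((∑ j ∈ Finset.range k, P (h (τ j))).1 + w.1) x = _
    rw [ContinuousMap.add_apply, Submodule.coe_sum, ContinuousMap.sum_apply, hwapp, hf1,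
      if_pos ⟨0, by omega, hxs 0 (by omega)⟩]
    congr 2
    have : ∀ j ∈ Finset.range k, ee 𝕜 (sing T (τ j)) x = 1 := fun j hj => by
      rw [ee_apply, if_pos (hxs j (Finset.mem_range.1 hj))]
    rw [Finset.sum_congr rfl this]
    simp
  have hb1 : ‖∑ j ∈ Finset.range k, (P (h (τ j))).1 x‖ ≤ k * (1 / 2) := by
    refine (norm_sum_le _ _).trans ?_
    rw [← nsmul_eq_mul]
    conv_rhs => rw [← Finset.card_range k]
    refine Finset.sum_le_card_nsmul _ _ _ fun j hj => ?_
    exact (hH0 (τ j) x fun i hi => hx j (Finset.mem_range.1 hj) i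
      (Finset.mem_insert_of_mem hi)).le
  have hb2 : ‖(P u).1 x‖ ≤ ‖P‖ := by
    calc ‖(P u).1 x‖ ≤ ‖(P u).1‖ := ContinuousMap.norm_coe_le_norm _ x
      _ = ‖P u‖ := rfl
      _ ≤ ‖P‖ * ‖u‖ := P.le_opNorm u
      _ ≤ ‖P‖ * 1 := mul_le_mul_of_nonneg_left hunorm (norm_nonneg _)
      _ = ‖P‖ := mul_one _
  have hb3 : ((k : ℝ) - 1) ≤ ‖(P u).1 x‖ + ‖∑ j ∈ Finset.range k, (P (h (τ j))).1 x‖ := by
    have h1 : ((k : 𝕜) - 1) = (P u).1 x - ∑ j ∈ Finset.range k, (P (h (τ j))).1 x := by
      rw [hPu]; ring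
    have h2 : ‖((k : 𝕜) - 1)‖ = (k : ℝ) - 1 := by
      have : ((k : 𝕜) - 1) = ((k - 1 : ℕ) : 𝕜) := by
        rw [Nat.cast_sub hk1]; simp
      rw [this, RCLike.norm_natCast, Nat.cast_sub hk1]
      simp
    rw [← h2, h1]
    exact norm_sub_le _ _
  linarith

end Example

/-- There is a Banach space with the separable complementation property and a closed subspace of
density `ℵ₁` which is contained in no complemented subspace of density (at most) `ℵ₁`. -/
theorem result (𝕜 : Type) [RCLike 𝕜] :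
    ∃ (X : Type) (_ : NormedAddCommGroup X) (_ : NormedSpace 𝕜 X),
      CompleteSpace X ∧ SCP 𝕜 X ∧
      ∃ W : Submodule 𝕜 X, IsClosed (W : Set X) ∧ dens W = ℵ₁ ∧
        ∀ V : Submodule 𝕜 X, IsComplementedIn 𝕜 X V → W ≤ V → ℵ₁ < dens V := by
  set T : Type := (ℵ₁ : Cardinal.{0}).out with hTdef
  have hT : #T = ℵ₁ := mk_out _
  have hTinf : Infinite T := by
    rw [Cardinal.infinite_iff, hT]
    exact aleph0_le_aleph 1
  have hinj : Function.Injective (sing T) := fun s t h => Set.singleton_injective h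
  refine ⟨vanish 𝕜 (pt T), inferInstance, inferInstance, ?_, scp_vanish _,
    sub 𝕜 (pt T) (Set.range (sing T)), isClosed_sub _ _, ?_, fun V hV hW =>
      not_complemented hT V hV hW⟩
  · exact (isClosed_vanish (pt T)).completeSpace_coe
  · exact le_antisymm (dens_sub_le _ _ hinj hT) (le_dens_sub _ _ pt_sing hT)

end Pool.Agent.Results.MP_52c726_an.Counterexample
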